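import Mathlib
import Pool.Agent.Results.MP_e7d72a_nt.Resonance
import Pool.Agent.Y379.SR.Good

/-!
# Shift radix systems whose characteristic polynomial has a cyclotomic factor

The negative answer to the question whether `E_d^(C)` is contained in `D_d`, in the following
strong form.  Let `Φ` be a monic integral divisor of some `X ^ N - 1` with a non-real root, let
`s` be a parameter in dimension `k` and let `r` be the parameter in dimension `deg Φ + k` whose
characteristic polynomial is the product of `Φ` and the one of `s`.  If `k ≥ 2` then there is an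
open set of parameters `s`, meeting both `E_k` and its boundary, for which `τ_r` has an unbounded
orbit; if `k = 0` then all orbits of `τ_r` are ultimately periodic; if `k = 1` and `|s| < 1` this
is so exactly if `Φ(1) ≠ 0` or `s ≥ 0`; and it is so in every dimension `k` if the entries of `s`
are nonnegative with sum less than one.  In general it holds exactly if it holds for `s` and all
periodic trajectories of `τ_s` are orthogonal to the roots of `Φ`.
-/

set_option autoImplicit false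

open Polynomial

namespace Pool.Agent.Results.MP_e7d72a_nt.CyclotomicFactors

open Pool.Agent.Results.MP_e7d72a_nt.Resonance Pool.Agent.Y379.SR

theorem result :
    (¬ ∀ d : ℕ, 2 ≤ d → EC d ⊆ D d) ∧
    ∀ (Φ : ℤ[X]) (N : ℕ), Φ.Monic → 1 ≤ N → Φ ∣ X ^ N - 1 →
      (∀ (k : ℕ) (s : Fin k → ℝ), ∃ r : Fin (Φ.natDegree + k) → ℝ,
        charPoly r = Φ.map (Int.castRingHom ℝ) * charPoly s) ∧
      (∀ (d k : ℕ) (r : Fin d → ℝ) (s : Fin k → ℝ),
        charPoly r = Φ.map (Int.castRingHom ℝ) * charPoly s →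
        d = Φ.natDegree + k ∧
        ((∃ η : ℂ, η.im ≠ 0 ∧ aeval η Φ = 0) → s ∈ closure (E k) → r ∈ EC d) ∧
        (r ∈ D d ↔ s ∈ D k ∧ ∀ (z : ℕ → ℤ) (p : ℕ), 1 ≤ p → (∀ n, z (n + p) = z n) →
          (∀ n, z (n + k) = -⌊∑ j : Fin k, s j * (z (n + j) : ℝ)⌋) →
          ∀ η : ℂ, η ^ p = 1 → aeval η Φ = 0 →
            ∑ n ∈ Finset.range p, (z n : ℂ) * η⁻¹ ^ n = 0) ∧
        ((∀ j, 0 ≤ s j) → ∑ j, s j < 1 → s ∈ E k ∧ r ∈ D d)) ∧
      (∀ (d : ℕ) (r : Fin d → ℝ) (s : Fin 0 → ℝ),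
        charPoly r = Φ.map (Int.castRingHom ℝ) * charPoly s → r ∈ D d) ∧
      (∀ (d : ℕ) (r : Fin d → ℝ) (s : Fin 1 → ℝ), s ∈ E 1 →
        charPoly r = Φ.map (Int.castRingHom ℝ) * charPoly s →
        (r ∈ D d ↔ Φ.eval 1 ≠ 0 ∨ 0 ≤ s 0)) ∧
      ((∃ η : ℂ, η.im ≠ 0 ∧ aeval η Φ = 0) → ∀ k : ℕ, 2 ≤ k →
        ∃ U : Set (Fin k → ℝ), IsOpen U ∧ (U ∩ E k).Nonempty ∧ (U ∩ frontier (E k)).Nonempty ∧
          ∀ s ∈ U, ∀ (d : ℕ) (r : Fin d → ℝ),
            charPoly r = Φ.map (Int.castRingHom ℝ) * charPoly s →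
            ∃ z : Fin d → ℤ, ¬ UltPeriodic r z ∧
              ∀ B : ℤ, ∃ n, ∃ i, B < |(tau r)^[n] z i|) := by
  have key : ∀ (Φ : ℤ[X]) (N : ℕ), Φ.Monic → 1 ≤ N → Φ ∣ X ^ N - 1 →
      (∃ η : ℂ, η.im ≠ 0 ∧ aeval η Φ = 0) → ∀ k : ℕ, 2 ≤ k →
        ∃ U : Set (Fin k → ℝ), IsOpen U ∧ (U ∩ E k).Nonempty ∧ (U ∩ frontier (E k)).Nonempty ∧
          ∀ s ∈ U, ∀ (d : ℕ) (r : Fin d → ℝ),
            charPoly r = Φ.map (Int.castRingHom ℝ) * charPoly s →
            ∃ z : Fin d → ℤ, ¬ UltPeriodic r z ∧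
              ∀ B : ℤ, ∃ n, ∃ i, B < |(tau r)^[n] z i| := by
    intro Φ N hΦ hN hdvd him k hk
    obtain ⟨k', rfl⟩ : ∃ k', k = k' + 2 := ⟨k - 2, by omega⟩
    exact open_bad_gen hΦ hN hdvd him k'
  constructor
  · intro hall
    have him : ∃ η : ℂ, η.im ≠ 0 ∧ aeval η (cyclotomic 3 ℤ) = 0 := by
      have hη := Complex.isPrimitiveRoot_exp 3 (by norm_num)
      refine ⟨_, prim_im le_rfl hη, ?_⟩
      rw [aeval_cyc_Z]
      exact (eval_cyc_iff le_rfl _).2 hη
    have hdvd : cyclotomic 3 ℤ ∣ X ^ 3 - 1 := cyclotomic.dvd_X_pow_sub_one 3 ℤ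
    obtain ⟨U, _, ⟨s, hsU, hsE⟩, _, hU⟩ := key (cyclotomic 3 ℤ) 3 (cyclotomic.monic 3 ℤ)
      (by norm_num) hdvd him 2 le_rfl
    obtain ⟨r, hr⟩ := exists_param s (cyclotomic.monic 3 ℤ)
    obtain ⟨z, hz, _⟩ := hU s hsU _ r hr
    have hEC := mem_EC_closure (by norm_num) (cyclotomic.monic 3 ℤ) hdvd hr
      (subset_closure hsE) him
    exact hz (hall _ (by omega) hEC z)
  · intro Φ N hΦ hN hdvd
    refine ⟨fun k s => exists_param s hΦ, ?_, fun d r s h => mem_D_zero hN hΦ hdvd h,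
      fun d r s hs h => mem_D_one hN hΦ hdvd hs h, key Φ N hΦ hN hdvd⟩
    intro d k r s h
    refine ⟨dim_eq hΦ h, fun him hs => mem_EC_closure hN hΦ hdvd h hs him, ?_, ?_⟩
    · rw [mem_D_mul hN hΦ hdvd h]
      refine and_congr_right fun _ => ?_
      refine forall_congr' fun z => forall_congr' fun p => forall_congr' fun _ =>
        forall_congr' fun _ => ?_
      rw [Tr_iff_floor]
      rfl
    · intro h0 hs
      refine ⟨sum_lt_mem_E ?_, mem_D_good hN hΦ hdvd h0 hs h⟩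
      rw [Finset.sum_congr rfl fun j _ => abs_of_nonneg (h0 j)]
      exact hs

end Pool.Agent.Results.MP_e7d72a_nt.CyclotomicFactors
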